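import Mathlib
import Pool.Agent.Helper61.RC.Defs

/-!
# RC-21: minimal homeomorphisms of compact metric spaces
-/

open scoped Topology
open Filter

noncomputable section

namespace Pool.Agent.Helper61.RC

variable {X : Type*} [MetricSpace X] [CompactSpace X]

omit [CompactSpace X] in
theorem minimal_of_pow (h : X ≃ₜ X) (n : ℕ) (hmin : MinimalHomeo (h ^ n)) : MinimalHomeo h := by
  intro x
  refine (hmin x).mono ?_
  rintro _ ⟨m, rfl⟩
  exact ⟨(n : ℤ) * m, by simp [zpow_mul]⟩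

omit [CompactSpace X] in
lemma rc21_add (h : X ≃ₜ X) (a b : ℤ) (x : X) : (h ^ (a + b)) x = (h ^ a) ((h ^ b) x) := by
  rw [zpow_add]; rfl

omit [CompactSpace X] in
lemma rc21_neg (h : X ≃ₜ X) (a : ℤ) (x : X) : (h ^ (-a)) ((h ^ a) x) = x := by
  rw [← rc21_add]; simp

omit [CompactSpace X] in
lemma rc21_fix (h : X ≃ₜ X) (m : ℤ) (x : X) (hx : (h ^ m) x = x) (q : ℤ) :
    (h ^ (m * q)) x = x := by
  induction q using Int.induction_on with
  | zero => simp
  | succ i ih => rw [mul_add, mul_one, rc21_add, hx, ih]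
  | pred i ih =>
    have : m * (-(i : ℤ) - 1) = m * (-(i : ℤ)) + (-m) := by ring
    rw [this, rc21_add]
    have h2 : (h ^ (-m)) x = x := by
      conv_lhs => rw [← hx]
      exact rc21_neg h m x
    rw [h2, ih]

omit [CompactSpace X] in
lemma rc21_free [Infinite X] (h : X ≃ₜ X) (hmin : MinimalHomeo h) :
    ∀ m : ℤ, m ≠ 0 → ∀ x, (h ^ m) x ≠ x := by
  intro m hm x hx
  have hfin : (Set.range fun k : ℤ => (h ^ k) x).Finite := by
    refine Set.Finite.subset ((Set.finite_Ico (0 : ℤ) |m|).image fun k : ℤ => (h ^ k) x) ?_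
    rintro _ ⟨k, rfl⟩
    refine ⟨k % m, ⟨Int.emod_nonneg k hm, Int.emod_lt_abs k hm⟩, ?_⟩
    show (h ^ (k % m)) x = (h ^ k) x
    conv_rhs => rw [← Int.emod_add_mul_ediv k m, rc21_add, rc21_fix h m x hx]
  have hcl : closure (Set.range fun k : ℤ => (h ^ k) x) = Set.univ := (hmin x).closure_eq
  rw [hfin.isClosed.closure_eq] at hcl
  exact Set.infinite_univ (hcl ▸ hfin)

theorem free_of_minimal [Infinite X] (h : X ≃ₜ X) (hmin : MinimalHomeo h) :
    ∀ m : ℤ, m ≠ 0 → ∀ x, (h ^ m) x ≠ x := rc21_free h hmin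

/-- finitely many integers suffice to move every point into `O` -/
lemma rc21_cover (h : X ≃ₜ X) (hmin : MinimalHomeo h) (O : Set X) (hO : IsOpen O)
    (hne : O.Nonempty) : ∃ N : ℕ, ∀ x, ∃ j : ℤ, |j| ≤ N ∧ (h ^ j) x ∈ O := by
  have hcov : (Set.univ : Set X) ⊆ ⋃ j : ℤ, (fun x => (h ^ j) x) ⁻¹' O := by
    intro x _
    obtain ⟨y, ⟨j, hj⟩, hyO⟩ := (hmin x).exists_mem_open hO hne
    rw [Set.mem_iUnion]
    refine ⟨j, ?_⟩
    have hj' : (h ^ j) x = y := hj
    rw [Set.mem_preimage, hj']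
    exact hyO
  obtain ⟨t, ht⟩ := isCompact_univ.elim_finite_subcover (fun j : ℤ => (fun x => (h ^ j) x) ⁻¹' O)
    (fun j => hO.preimage (h ^ j).continuous) hcov
  refine ⟨∑ j ∈ t, j.natAbs, fun x => ?_⟩
  have hx := ht (Set.mem_univ x)
  simp only [Set.mem_iUnion] at hx
  obtain ⟨j, hjt, hj⟩ := hx
  refine ⟨j, ?_, hj⟩
  have : j.natAbs ≤ ∑ j ∈ t, j.natAbs := Finset.single_le_sum (fun i _ => Nat.zero_le _) hjt
  rw [Int.abs_eq_natAbs]
  exact_mod_cast this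

theorem exists_return (h : X ≃ₜ X) (hmin : MinimalHomeo h) (O : Set X) (hO : IsOpen O)
    (hne : O.Nonempty) : ∃ N : ℕ, ∀ x, ∃ j : ℕ, j < N ∧ (h ^ (j : ℤ)) x ∈ O := by
  obtain ⟨N, hN⟩ := rc21_cover h hmin O hO hne
  refine ⟨2 * N + 1, fun x => ?_⟩
  obtain ⟨j, hj, hjO⟩ := hN ((h ^ (N : ℤ)) x)
  rw [abs_le] at hj
  refine ⟨(j + N).toNat, by omega, ?_⟩
  rw [Int.toNat_of_nonneg (by omega), rc21_add]
  exact hjO

theorem exists_return_back (h : X ≃ₜ X) (hmin : MinimalHomeo h) (O : Set X) (hO : IsOpen O)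
    (hne : O.Nonempty) : ∃ N : ℕ, ∀ x, ∃ j : ℕ, j < N ∧ (h ^ (-(j : ℤ))) x ∈ O := by
  obtain ⟨N, hN⟩ := rc21_cover h hmin O hO hne
  refine ⟨2 * N + 1, fun x => ?_⟩
  obtain ⟨j, hj, hjO⟩ := hN ((h ^ (-(N : ℤ))) x)
  rw [abs_le] at hj
  refine ⟨(N - j).toNat, by omega, ?_⟩
  have : -(((N - j).toNat : ℕ) : ℤ) = j + -(N : ℤ) := by
    rw [Int.toNat_of_nonneg (by omega)]; ring
  rw [this, rc21_add]
  exact hjO

theorem exists_visit_after (h : X ≃ₜ X) (hmin : MinimalHomeo h) (O : Set X) (hO : IsOpen O)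
    (hne : O.Nonempty) (x : X) (m : ℤ) : ∃ j : ℤ, m ≤ j ∧ (h ^ j) x ∈ O := by
  obtain ⟨N, hN⟩ := exists_return h hmin O hO hne
  obtain ⟨j, _, hj⟩ := hN ((h ^ m) x)
  refine ⟨j + m, by omega, ?_⟩
  rw [rc21_add]
  exact hj

theorem open_infinite [Infinite X] (h : X ≃ₜ X) (hmin : MinimalHomeo h) (O : Set X)
    (hO : IsOpen O) (hne : O.Nonempty) : O.Infinite := by
  intro hfin
  obtain ⟨x, hx⟩ := hne
  -- `{x}` is open
  have hopen : IsOpen ({x} : Set X) := by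
    have h1 : IsClosed (O \ {x}) := (hfin.subset Set.sdiff_subset).isClosed
    have h2 : ({x} : Set X) = O \ (O \ {x}) := by
      ext y
      simp only [Set.mem_singleton_iff, Set.mem_sdiff, not_and, not_not]
      constructor
      · rintro rfl
        exact ⟨hx, fun _ => rfl⟩
      · rintro ⟨hy, hy'⟩
        exact hy' hy
    rw [h2]
    exact hO.sdiff h1
  -- finitely many translates of `{x}` cover
  obtain ⟨N, hN⟩ := exists_return h hmin {x} hopen (Set.singleton_nonempty x)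
  have : (Set.univ : Set X) ⊆ (fun j : ℕ => (h ^ (-(j : ℤ))) x) '' Set.Iio N := by
    intro y _
    obtain ⟨j, hj, hjy⟩ := hN y
    refine ⟨j, hj, ?_⟩
    rw [Set.mem_singleton_iff] at hjy
    show (h ^ (-(j : ℤ))) x = y
    rw [← hjy]
    exact rc21_neg h j y
  exact Set.infinite_univ (((Set.finite_Iio N).image _).subset this)

end Pool.Agent.Helper61.RC
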